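import Pool.Agent.Helper93.UX.Defs

/-!
# Project X, block XS: the measure of the deviations of the averaged count

From Q0' (`to_meas`), Q12' (`dev_meas`) and the measurability of `AW`: `δ = min (1/32) (ε/500)`, `m = V² + c0 log² c`,
`v = σ (1 + 20δ) π V / ll c m`.
-/

set_option autoImplicit false
open MeasureTheory Set Filter Topology
open Pool.Agent.Helper57.Zeta Pool.Agent.Helper57.LH Pool.Agent.Helper57.ED Pool.Agent.Helper54.LG
open Pool.Agent.Helper93.UG (zc IsOrd sp Glong Gshort)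
open Pool.Agent.Helper69.UG (pt NX XX NR NM WW near far)
open Pool.Agent.Helper69.UV (ww HH)
open Pool.Agent.Helper69.UW
open Pool.Agent.Helper93.UX

namespace Pool.Agent.Helper88.UX

/-- the constant -/
lemma const88 {δ ε : ℝ} (hδ : 0 < δ) (hδ1 : δ ≤ 1 / 32) (hε : 500 * δ ≤ ε) :
    (1 + 15 * δ) * (1 + 20 * δ) ^ 2 * (Real.pi ^ 2 / 2) ≤ (Real.pi ^ 2 / 2 + ε) * (1 - δ) := by
  have h1 := Real.pi_lt_d2
  have h2 := Real.pi_pos
  have hp : Real.pi ^ 2 / 2 ≤ 5 := by nlinarith only [h1, h2]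
  have hp0 : 0 < Real.pi ^ 2 / 2 := by positivity
  set p := Real.pi ^ 2 / 2
  have hd2 : δ ^ 2 ≤ δ / 32 := by nlinarith only [hδ, hδ1]
  have hd3 : δ ^ 3 ≤ δ / 1024 := by nlinarith only [hδ, hδ1, hd2]
  have e : (1 + 15 * δ) * (1 + 20 * δ) ^ 2 - (1 - δ) = 56 * δ + 1000 * δ ^ 2 + 6000 * δ ^ 3 := by ring
  have h3 : (1 + 15 * δ) * (1 + 20 * δ) ^ 2 - (1 - δ) ≤ 94 * δ := by
    rw [e]
    linarith
  have h4 : p * ((1 + 15 * δ) * (1 + 20 * δ) ^ 2 - (1 - δ)) ≤ 5 * (94 * δ) :=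
    mul_le_mul hp h3 (by rw [e]; positivity) (by norm_num)
  have h5 : 5 * (94 * δ) ≤ ε * (1 - δ) := by nlinarith only [hδ, hδ1, hε]
  linarith only [h4, h5, (by ring : p * ((1 + 15 * δ) * (1 + 20 * δ) ^ 2 - (1 - δ)) =
    (1 + 15 * δ) * (1 + 20 * δ) ^ 2 * p - p * (1 - δ)), (by ring : (p + ε) * (1 - δ) = p * (1 - δ) + ε * (1 - δ))]

/-- the two logarithms -/
lemma logs88 {a δ : ℝ} (ha : 1 ≤ a) (hδ : 0 < δ) : ∃ c₀ : ℝ, 3 ≤ c₀ ∧ ∀ c V : ℝ, c₀ ≤ c → √(Real.log c) ≤ V →
    2 * a * V ^ 2 ≤ c → Real.exp 1 * V ^ 2 ≤ c →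
    a * (V ^ 2 + a * Real.log c ^ 2) ≤ c ∧ (1 - δ) * Real.log (c / V ^ 2) ≤ ll c (V ^ 2 + a * Real.log c ^ 2) := by
  have hl : Tendsto Real.log atTop atTop := Real.tendsto_log_atTop
  have t1 : ∀ᶠ c : ℝ in atTop, Real.log c ^ 2 ≤ (1 / (2 * a ^ 2)) * c := by
    have := (Real.isLittleO_pow_log_id_atTop (n := 2)).bound (show (0 : ℝ) < 1 / (2 * a ^ 2) by positivity)
    filter_upwards [this, eventually_ge_atTop 0] with c h1 h2
    rw [Real.norm_eq_abs, Real.norm_eq_abs, abs_of_nonneg (by positivity)] at h1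
    simp only [id] at h1
    rwa [abs_of_nonneg h2] at h1
  have t2 : ∀ᶠ c : ℝ in atTop, Real.log (1 + a * Real.log c) ≤ δ / 2 * Real.log c := by
    have h1 : Tendsto (fun y : ℝ => 1 + a * y) atTop atTop :=
      tendsto_atTop_add_const_left _ _ (tendsto_id.const_mul_atTop (by linarith))
    have h2 := (Real.isLittleO_log_id_atTop.bound (show (0 : ℝ) < δ / (4 * a) by positivity))
    have h3 := (h1.comp hl).eventually h2
    filter_upwards [h3, hl.eventually_ge_atTop 1, hl.eventually_ge_atTop (1 / a)] with c h4 h5 h6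
    simp only [Function.comp, id] at h4
    have h7 : 0 ≤ a * Real.log c := by positivity
    rw [Real.norm_eq_abs, Real.norm_eq_abs, abs_of_nonneg (Real.log_nonneg (by linarith)),
      abs_of_nonneg (by linarith)] at h4
    have h8 : 1 ≤ a * Real.log c := by
      rw [div_le_iff₀ (by linarith)] at h6
      linarith
    have h9 : δ / (4 * a) * (1 + a * Real.log c) ≤ δ / (4 * a) * (2 * (a * Real.log c)) :=
      mul_le_mul_of_nonneg_left (by linarith) (by positivity)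
    have e : δ / (4 * a) * (2 * (a * Real.log c)) = δ / 2 * Real.log c := by
      field_simp
      ring
    linarith
  have t3 : ∀ᶠ c : ℝ in atTop, a * Real.log c ^ 2 ≤ δ * √c := by
    have h1 := (isLittleO_log_rpow_atTop (r := 1 / 4) (by norm_num)).bound (show (0 : ℝ) < √(δ / a) by positivity)
    filter_upwards [h1, eventually_ge_atTop 1] with c h2 h3
    have hc : (0 : ℝ) ≤ c := by linarith
    rw [Real.norm_eq_abs, Real.norm_eq_abs, abs_of_nonneg (Real.log_nonneg h3), abs_of_nonneg (by positivity)] at h2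
    have h4 : Real.log c ^ 2 ≤ (√(δ / a) * c ^ (1 / 4 : ℝ)) ^ 2 := pow_le_pow_left₀ (Real.log_nonneg h3) h2 2
    have e : (√(δ / a) * c ^ (1 / 4 : ℝ)) ^ 2 = δ / a * √c := by
      rw [mul_pow, Real.sq_sqrt (by positivity), ← Real.rpow_natCast, ← Real.rpow_mul hc, Real.sqrt_eq_rpow]
      norm_num
    rw [e] at h4
    have h5 := mul_le_mul_of_nonneg_left h4 (show (0 : ℝ) ≤ a by linarith)
    have e2 : a * (δ / a * √c) = δ * √c := by field_simp
    linarith
  obtain ⟨c₀, hc₀⟩ := eventually_atTop.mp (t1.and (t2.and t3))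
  refine ⟨max 3 c₀, le_max_left _ _, fun c V hc hV h1 h2 => ?_⟩
  obtain ⟨u1, u2, u3⟩ := hc₀ c ((le_max_right _ _).trans hc)
  have hc3 : 3 ≤ c := (le_max_left _ _).trans hc
  have hc0 : 0 < c := by linarith
  have hl1 : 1 ≤ Real.log c := by
    have h3 : Real.exp 1 ≤ 3 := by linarith [Real.exp_one_lt_d9]
    have := Real.log_le_log (Real.exp_pos 1) (h3.trans hc3)
    rwa [Real.log_exp] at this
  have hV1 : 1 ≤ V := by
    refine le_trans ?_ hV
    rw [Real.one_le_sqrt]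
    exact hl1
  have hV2 : Real.log c ≤ V ^ 2 := by
    have := pow_le_pow_left₀ (Real.sqrt_nonneg _) hV 2
    rwa [Real.sq_sqrt (by linarith)] at this
  have hV0 : 0 < V ^ 2 := by positivity
  set m := V ^ 2 + a * Real.log c ^ 2 with hm
  have hm0 : 0 < m := by positivity
  constructor
  · have e : a * m = a * V ^ 2 + a ^ 2 * Real.log c ^ 2 := by rw [hm]; ring
    have h3 : a ^ 2 * Real.log c ^ 2 ≤ a ^ 2 * ((1 / (2 * a ^ 2)) * c) := mul_le_mul_of_nonneg_left u1 (sq_nonneg _)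
    have e2 : a ^ 2 * ((1 / (2 * a ^ 2)) * c) = c / 2 := by field_simp
    rw [e]
    linarith
  · -- `log (c/V²) - log (c/m) = log (m/V²)`
    have e : Real.log (c / V ^ 2) - ll c m = Real.log (m / V ^ 2) := by
      unfold ll
      rw [Real.log_div hc0.ne' hV0.ne', Real.log_div hc0.ne' hm0.ne', Real.log_div hm0.ne' hV0.ne']
      ring
    have hL1 : 1 ≤ Real.log (c / V ^ 2) := by
      rw [Real.le_log_iff_exp_le (by positivity), le_div_iff₀ hV0]
      exact h2
    have key : Real.log (m / V ^ 2) ≤ δ * Real.log (c / V ^ 2) := by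
      rcases le_total (V ^ 2) (√c) with hcase | hcase
      · have h3 : m / V ^ 2 ≤ 1 + a * Real.log c := by
          rw [div_le_iff₀ hV0, hm]
          have : a * Real.log c ^ 2 ≤ a * Real.log c * V ^ 2 := by
            have h4 := mul_le_mul_of_nonneg_left hV2 (show (0 : ℝ) ≤ a * Real.log c by positivity)
            linarith [h4, (by ring : a * Real.log c * Real.log c = a * Real.log c ^ 2)]
          linarith
        have h4 : Real.log (m / V ^ 2) ≤ δ / 2 * Real.log c := (Real.log_le_log (by positivity) h3).trans u2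
        have h5 : Real.log c / 2 ≤ Real.log (c / V ^ 2) := by
          rw [← Real.log_sqrt hc0.le]
          apply Real.log_le_log (by positivity)
          rw [le_div_iff₀ hV0]
          calc √c * V ^ 2 ≤ √c * √c := mul_le_mul_of_nonneg_left hcase (Real.sqrt_nonneg _)
            _ = c := Real.mul_self_sqrt hc0.le
        have h6 := mul_le_mul_of_nonneg_left h5 hδ.le
        linarith
      · have h3 : m / V ^ 2 ≤ 1 + δ := by
          rw [div_le_iff₀ hV0, hm]
          have := mul_le_mul_of_nonneg_left hcase hδ.le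
          linarith
        have h4 : Real.log (m / V ^ 2) ≤ δ := by
          have h5 := Real.log_le_sub_one_of_pos (show 0 < m / V ^ 2 by positivity)
          linarith
        have h6 := mul_le_mul_of_nonneg_left hL1 hδ.le
        linarith
    linarith

/-- XS -/
theorem xs_of (hAW : ∀ {T c m : ℝ}, 1 < T → 0 < m → Measurable (AW T c m))
    (hto : ∀ {δ : ℝ}, 0 < δ → δ ≤ 1 / 32 → ∀ κ : ℝ, 0 < κ → ∃ K c0 T0 : ℝ, 0 < K ∧ ∀ T c m v : ℝ, T0 ≤ T →
      Adm c0 T c m → |v| ≤ vv δ c m → K * Real.log c ≤ (v * ll c m) ^ 2 → ∀ G : Set ℝ, MeasurableSet G →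
      (∀ τ, 5 / 4 * T ≤ τ → τ ≤ 7 / 4 * T → κ * VV δ T c m v ≤ ∫ t in G, wt δ T c m v τ t) →
      ENNReal.ofReal (Real.exp (-((1 + 15 * δ) * (v ^ 2 * ll c m / 2))) * T) ≤ volume (G ∩ Icc T (2 * T)))
    (hdev : ∀ {δ : ℝ}, 0 < δ → δ ≤ 1 / 32 → ∃ κ K c0 T0 : ℝ, 0 < κ ∧ 0 < K ∧ ∀ T c m v : ℝ, T0 ≤ T →
      Adm c0 T c m → |v| ≤ vv δ c m → K * Real.log c ≤ (v * ll c m) ^ 2 → ∀ τ : ℝ, T ≤ τ → τ ≤ 2 * T →
      κ * VV δ T c m v ≤
        ∫ t in {t : ℝ | (1 - 5 * δ) * (v ^ 2 * ll c m / Real.pi) ≤ v * (c - AW T c m t)}, wt δ T c m v τ t) : XS := by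
  intro ε hε
  set δ : ℝ := min (1 / 32) (ε / 500) with hδdef
  have hδ : 0 < δ := lt_min (by norm_num) (by positivity)
  have hδ1 : δ ≤ 1 / 32 := min_le_left _ _
  have hδ2 : 500 * δ ≤ ε := by
    have := min_le_right (1 / 32) (ε / 500)
    rw [← hδdef] at this
    linarith
  obtain ⟨κ, K1, c1, T1, hκ, hK1, h1⟩ := hdev hδ hδ1
  obtain ⟨K2, c2, T2, hK2, h2⟩ := hto hδ hδ1 κ hκ
  set a : ℝ := max 2 (max c1 c2) with ha
  have ha2 : 2 ≤ a := le_max_left _ _
  have hac1 : c1 ≤ a := (le_max_left _ _).trans (le_max_right _ _)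
  have hac2 : c2 ≤ a := (le_max_right _ _).trans (le_max_right _ _)
  obtain ⟨c₀, hc₀3, hlog⟩ := logs88 (a := a) (δ := δ) (by linarith) hδ
  set K : ℝ := max 1 (max K1 K2) with hK
  have hK1' : 1 ≤ K := le_max_left _ _
  have hKK1 : K1 ≤ K := (le_max_left _ _).trans (le_max_right _ _)
  have hKK2 : K2 ≤ K := (le_max_right _ _).trans (le_max_right _ _)
  set η : ℝ := 1 / (3 * a) with hη
  have hη0 : 0 < η := by positivity
  have hl := Real.tendsto_log_atTop
  have hll : Tendsto (fun T : ℝ => Real.log (Real.log T)) atTop atTop := hl.comp hl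
  obtain ⟨T3, hT3⟩ := eventually_atTop.mp ((hll.eventually_gt_atTop 0).and (eventually_gt_atTop 1))
  refine ⟨K, η, 10 * δ, c₀, 1 / 64, max T3 (max T1 T2), by linarith, hη0, by positivity, by norm_num, ?_⟩
  intro T hT c V σ hc hcT hV hVη hσ
  obtain ⟨hllT, hT1⟩ := hT3 T ((le_max_left _ _).trans hT)
  have hTT1 : T1 ≤ T := ((le_max_left _ _).trans (le_max_right _ _)).trans hT
  have hTT2 : T2 ≤ T := ((le_max_right _ _).trans (le_max_right _ _)).trans hT
  have hT0 : 0 < T := by linarith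
  have hc3 : 3 ≤ c := hc₀3.trans hc
  have hc0 : 0 < c := by linarith
  have hlc : 1 ≤ Real.log c := by
    have h3 : Real.exp 1 ≤ 3 := by linarith [Real.exp_one_lt_d9]
    have := Real.log_le_log (Real.exp_pos 1) (h3.trans hc3)
    rwa [Real.log_exp] at this
  have hVs : √(Real.log c) ≤ V := by
    refine le_trans ?_ hV
    have := mul_le_mul_of_nonneg_right hK1' (Real.sqrt_nonneg (Real.log c))
    linarith
  have hV1 : 1 ≤ V := by
    refine le_trans ?_ hVs
    rw [Real.one_le_sqrt]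
    exact hlc
  have hV0 : 0 < V := by linarith
  have hVV : V ^ 2 ≤ η ^ 2 * c := by
    have := pow_le_pow_left₀ hV0.le hVη 2
    rwa [mul_pow, Real.sq_sqrt hc0.le] at this
  have hηa : η ^ 2 * (2 * a) ≤ 1 := by
    rw [hη, div_pow, one_pow, mul_pow]
    rw [div_mul_eq_mul_div, one_mul, div_le_one (by positivity)]
    nlinarith only [ha2]
  have hηe : η ^ 2 * Real.exp 1 ≤ 1 := by
    have h3 : Real.exp 1 ≤ 2 * a := by linarith [Real.exp_one_lt_d9]
    have := mul_le_mul_of_nonneg_left h3 (sq_nonneg η)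
    linarith
  have e1 : 2 * a * V ^ 2 ≤ c := by
    have h3 := mul_le_mul_of_nonneg_left hVV (show (0 : ℝ) ≤ 2 * a by linarith)
    have h4 : 2 * a * (η ^ 2 * c) = (η ^ 2 * (2 * a)) * c := by ring
    have h5 : (η ^ 2 * (2 * a)) * c ≤ 1 * c := mul_le_mul_of_nonneg_right hηa hc0.le
    linarith
  have e2 : Real.exp 1 * V ^ 2 ≤ c := by
    have h3 := mul_le_mul_of_nonneg_left hVV (Real.exp_pos 1).le
    have h4 : Real.exp 1 * (η ^ 2 * c) = (η ^ 2 * Real.exp 1) * c := by ring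
    have h5 : (η ^ 2 * Real.exp 1) * c ≤ 1 * c := mul_le_mul_of_nonneg_right hηe hc0.le
    linarith
  obtain ⟨hm1, hL⟩ := hlog c V hc hVs e1 e2
  set m : ℝ := V ^ 2 + a * Real.log c ^ 2 with hm
  have hVm : V ^ 2 ≤ m := by
    have : 0 ≤ a * Real.log c ^ 2 := by positivity
    linarith
  have hm1' : 1 ≤ m := (one_le_pow₀ hV1).trans hVm
  have hm0 : 0 < m := by linarith
  have hA : Adm a T c m := by
    refine ⟨hc3, hm1', ?_, hm1, ?_⟩
    · have : 0 ≤ V ^ 2 := sq_nonneg V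
      linarith
    · have h3 := mul_le_mul_of_nonneg_right hcT hllT.le
      have e : 1 / 64 * (Real.log T / Real.log (Real.log T)) * Real.log (Real.log T) = Real.log T / 64 := by
        field_simp
      linarith
  have hmc : m ≤ c := hA.m_le_c (by linarith)
  have hl0 : 0 < ll c m := ll_pos hA (by linarith)
  have hπ := Real.pi_pos
  set w : ℝ := (1 + 20 * δ) * Real.pi * V / ll c m with hw
  have hw0 : 0 < w := by positivity
  have hwl : w * ll c m = (1 + 20 * δ) * Real.pi * V := by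
    rw [hw]
    field_simp
  have hwv : w ≤ vv δ c m := by
    have h3 : V ≤ √m := Real.le_sqrt_of_sq_le hVm
    rw [hw]
    unfold vv
    apply div_le_div_of_nonneg_right _ hl0.le
    exact mul_le_mul_of_nonneg_left h3 (by positivity)
  have hσ2 : σ ^ 2 = 1 := by
    rcases hσ with h | h <;> rw [h] <;> norm_num
  have habs : |σ * w| ≤ vv δ c m := by
    have h3 : |σ| = 1 := by
      rcases hσ with h | h <;> rw [h] <;> norm_num
    rw [abs_mul, h3, one_mul, abs_of_pos hw0]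
    exact hwv
  have hsq : (σ * w * ll c m) ^ 2 = ((1 + 20 * δ) * Real.pi * V) ^ 2 := by
    rw [mul_assoc, mul_pow, hσ2, one_mul, hwl]
  have hKl : K * Real.log c ≤ (σ * w * ll c m) ^ 2 := by
    rw [hsq]
    have h3 : (K * √(Real.log c)) ^ 2 ≤ V ^ 2 := pow_le_pow_left₀ (by positivity) hV 2
    rw [mul_pow, Real.sq_sqrt (by linarith)] at h3
    have h4 : K * Real.log c ≤ K ^ 2 * Real.log c := mul_le_mul_of_nonneg_right (by nlinarith only [hK1']) (by linarith only [hlc])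
    have h5 : V ≤ (1 + 20 * δ) * Real.pi * V := by
      have h6 : 1 ≤ (1 + 20 * δ) * Real.pi := by nlinarith only [Real.pi_gt_three, hδ]
      exact le_mul_of_one_le_left hV0.le h6
    have h7 := pow_le_pow_left₀ hV0.le h5 2
    linarith
  have hKl1 : K1 * Real.log c ≤ (σ * w * ll c m) ^ 2 :=
    (mul_le_mul_of_nonneg_right hKK1 (by linarith)).trans hKl
  have hKl2 : K2 * Real.log c ≤ (σ * w * ll c m) ^ 2 :=
    (mul_le_mul_of_nonneg_right hKK2 (by linarith)).trans hKl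
  refine ⟨m, hm1', hmc, ?_⟩
  set G : Set ℝ := {t : ℝ | (1 - 5 * δ) * ((σ * w) ^ 2 * ll c m / Real.pi) ≤ (σ * w) * (c - AW T c m t)} with hG
  have hGm : MeasurableSet G := by
    refine measurableSet_le measurable_const ?_
    exact measurable_const.mul (measurable_const.sub (hAW hT1 hm0))
  have h10 : ∀ τ, 5 / 4 * T ≤ τ → τ ≤ 7 / 4 * T → κ * VV δ T c m (σ * w) ≤ ∫ t in G, wt δ T c m (σ * w) τ t := by
    intro τ hτ1 hτ2
    have hτ3 : T ≤ τ := by linarith only [hτ1, hT0]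
    have hτ4 : τ ≤ 2 * T := by linarith only [hτ2, hT0]
    exact h1 T c m (σ * w) hTT1 (hA.mono hac1) habs hKl1 τ hτ3 hτ4
  have h3 := h2 T c m (σ * w) hTT2 (hA.mono hac2) habs hKl2 G hGm h10
  have hsub : G ∩ Icc T (2 * T) ⊆ {t : ℝ | T ≤ t ∧ t ≤ 2 * T ∧ (1 + 10 * δ) * V ≤ σ * (c - AW T c m t)} := by
    rintro t ⟨ht, ht1, ht2⟩
    refine ⟨ht1, ht2, ?_⟩
    have h4 : (1 - 5 * δ) * ((σ * w) ^ 2 * ll c m / Real.pi) ≤ (σ * w) * (c - AW T c m t) := ht
    have e3 : (σ * w) ^ 2 * ll c m / Real.pi = w * ((1 + 20 * δ) * V) := by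
      have e4 : (σ * w) ^ 2 * ll c m = w * (w * ll c m) := by
        rw [mul_pow, hσ2]
        ring
      rw [e4, hwl]
      field_simp
    rw [e3] at h4
    have h5 : w * ((1 - 5 * δ) * ((1 + 20 * δ) * V)) ≤ w * (σ * (c - AW T c m t)) := by
      linarith [h4, (by ring : w * ((1 - 5 * δ) * ((1 + 20 * δ) * V)) = (1 - 5 * δ) * (w * ((1 + 20 * δ) * V))),
        (by ring : w * (σ * (c - AW T c m t)) = σ * w * (c - AW T c m t))]
    have h6 := le_of_mul_le_mul_left h5 hw0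
    have h7 : (1 + 10 * δ) * V ≤ (1 - 5 * δ) * ((1 + 20 * δ) * V) := by
      rw [← mul_assoc]
      apply mul_le_mul_of_nonneg_right _ hV0.le
      nlinarith only [hδ, hδ1]
    linarith
  refine le_trans ?_ (h3.trans (measure_mono hsub))
  apply ENNReal.ofReal_le_ofReal
  apply mul_le_mul_of_nonneg_right _ hT0.le
  apply Real.exp_le_exp.2
  apply neg_le_neg
  have hLV : 0 < Real.log (c / V ^ 2) := by
    have : 1 ≤ Real.log (c / V ^ 2) := by
      rw [Real.le_log_iff_exp_le (by positivity), le_div_iff₀ (by positivity)]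
      exact e2
    linarith
  have e5 : (1 + 15 * δ) * ((σ * w) ^ 2 * ll c m / 2) =
      (1 + 15 * δ) * (1 + 20 * δ) ^ 2 * (Real.pi ^ 2 / 2) * V ^ 2 / ll c m := by
    rw [mul_pow, hσ2, one_mul, hw]
    field_simp
  rw [e5, div_le_div_iff₀ hl0 hLV]
  have h8 := const88 hδ hδ1 hδ2
  have hπε : 0 < Real.pi ^ 2 / 2 + ε := by positivity
  calc (1 + 15 * δ) * (1 + 20 * δ) ^ 2 * (Real.pi ^ 2 / 2) * V ^ 2 * Real.log (c / V ^ 2)
      ≤ (Real.pi ^ 2 / 2 + ε) * (1 - δ) * V ^ 2 * Real.log (c / V ^ 2) := by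
        apply mul_le_mul_of_nonneg_right _ hLV.le
        exact mul_le_mul_of_nonneg_right h8 (sq_nonneg _)
    _ = (Real.pi ^ 2 / 2 + ε) * V ^ 2 * ((1 - δ) * Real.log (c / V ^ 2)) := by ring
    _ ≤ (Real.pi ^ 2 / 2 + ε) * V ^ 2 * ll c m := mul_le_mul_of_nonneg_left hL (by positivity)

end Pool.Agent.Helper88.UX
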